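import Mathlib
import Pool.Agent.Helper90.SpinalDefs

/-!
A normal closure criterion for exponential geodesic growth.

`G` is a group, `χ : G → ℤ` a homomorphism, `S` a finite set generating `G` as a monoid, `t ∈ S` a
letter at which `χ` takes its maximum `M` on `S`.  The excess of a word `w` is
`M * length w - χ (w)`, a non-negative integer, additive under concatenation, and `0` on powers
of `t`.  If `N` is a normal subgroup containing `t ^ p`, a word whose excess is minimal in its
coset of `N` is geodesic, all its subwords have minimal excess, and `t ^ p` may be inserted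
anywhere.  If `N` has infinite index there are words of minimal excess with arbitrarily many
letters different from `t`, and this gives exponentially many geodesic words.
-/

namespace Pool.Agent.Helper93.Geo

open Pool.Agent.Helper90.Spinal

variable {G : Type*} [Group G]

/-- The value of a word under `χ`, as an integer. -/
def cv (χ : G →* Multiplicative ℤ) (w : List G) : ℤ := Multiplicative.toAdd (χ w.prod)

/-- The excess of a word. -/
def ex (χ : G →* Multiplicative ℤ) (M : ℤ) (w : List G) : ℤ := M * (w.length : ℤ) - cv χ w

theorem cv_append (χ : G →* Multiplicative ℤ) (u v : List G) :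
    cv χ (u ++ v) = cv χ u + cv χ v := by
  simp [cv, List.prod_append]

theorem ex_append (χ : G →* Multiplicative ℤ) (M : ℤ) (u v : List G) :
    ex χ M (u ++ v) = ex χ M u + ex χ M v := by
  simp only [ex, cv_append, List.length_append]
  push_cast
  ring

theorem ex_nonneg (χ : G →* Multiplicative ℤ) (M : ℤ) (S : Set G)
    (hM : ∀ s ∈ S, Multiplicative.toAdd (χ s) ≤ M) :
    ∀ w : List G, (∀ s ∈ w, s ∈ S) → 0 ≤ ex χ M w := by
  intro w
  induction w with
  | nil => intro _; simp [ex, cv]
  | cons a w ih =>
    intro h
    have h1 := ih (fun s hs => h s (List.mem_cons_of_mem _ hs))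
    have h2 := hM a (h a List.mem_cons_self)
    have h3 : ex χ M (a :: w) = (M - Multiplicative.toAdd (χ a)) + ex χ M w := by
      simp only [ex, cv, List.length_cons, List.prod_cons, map_mul, toAdd_mul]
      push_cast
      ring
    rw [h3]
    linarith

theorem ex_replicate (χ : G →* Multiplicative ℤ) (M : ℤ) (t : G)
    (ht : Multiplicative.toAdd (χ t) = M) (p : ℕ) : ex χ M (List.replicate p t) = 0 := by
  simp only [ex, cv, List.length_replicate, List.prod_replicate, map_pow, toAdd_pow, ht]
  simp [mul_comm]

/-- A word over `S` whose excess is minimal in its coset of the normal subgroup `N`. -/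
def Tight (χ : G →* Multiplicative ℤ) (M : ℤ) (S : Set G) (N : Subgroup G) (w : List G) : Prop :=
  (∀ s ∈ w, s ∈ S) ∧ ∀ w' : List G, (∀ s ∈ w', s ∈ S) →
    ((w'.prod : G) : G ⧸ N) = ((w.prod : G) : G ⧸ N) → ex χ M w ≤ ex χ M w'

variable {χ : G →* Multiplicative ℤ} {M : ℤ} {S : Set G} {N : Subgroup G}

theorem Tight.geodesic (hM : 0 < M) {w : List G} (h : Tight χ M S N w) : IsGeodesic S w := by
  refine ⟨h.1, fun l' hl' he => ?_⟩
  have h1 := h.2 l' hl' (by rw [he])
  have h2 : cv χ l' = cv χ w := by simp [cv, he]
  simp only [ex, h2] at h1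
  have h3 : M * (w.length : ℤ) ≤ M * (l'.length : ℤ) := by linarith
  have h4 := le_of_mul_le_mul_left h3 hM
  exact_mod_cast h4

theorem coset_congr [N.Normal] {u v x v' : List G}
    (h : ((v'.prod : G) : G ⧸ N) = ((v.prod : G) : G ⧸ N)) :
    (((u ++ v' ++ x).prod : G) : G ⧸ N) = (((u ++ v ++ x).prod : G) : G ⧸ N) := by
  simp only [List.prod_append, QuotientGroup.mk_mul, h]

theorem Tight.mid [N.Normal] {u v x : List G} (h : Tight χ M S N (u ++ v ++ x)) :
    Tight χ M S N v := by
  refine ⟨fun s hs => h.1 s (by simp [hs]), fun v' hv' he => ?_⟩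
  have h1 := h.2 (u ++ v' ++ x) (by
    intro s hs
    simp only [List.mem_append] at hs
    rcases hs with (hs | hs) | hs
    · exact h.1 s (by simp [hs])
    · exact hv' s hs
    · exact h.1 s (by simp [hs])) (coset_congr he)
  simp only [ex_append] at h1
  linarith

theorem coset_insert [N.Normal] {t : G} {p : ℕ} (hN : t ^ p ∈ N) (u x : List G) :
    (((u ++ List.replicate p t ++ x).prod : G) : G ⧸ N) = (((u ++ x).prod : G) : G ⧸ N) := by
  have h1 : ((t ^ p : G) : G ⧸ N) = 1 := (QuotientGroup.eq_one_iff _).2 hN
  simp only [List.prod_append, List.prod_replicate, QuotientGroup.mk_mul, h1, mul_one]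

theorem Tight.insert [N.Normal] {t : G} (htS : t ∈ S) (ht : Multiplicative.toAdd (χ t) = M)
    {p : ℕ} (hN : t ^ p ∈ N) {u x : List G} (h : Tight χ M S N (u ++ x)) :
    Tight χ M S N (u ++ List.replicate p t ++ x) := by
  refine ⟨?_, fun w' hw' he => ?_⟩
  · intro s hs
    simp only [List.mem_append] at hs
    rcases hs with (hs | hs) | hs
    · exact h.1 s (by simp [hs])
    · rw [List.eq_of_mem_replicate hs]; exact htS
    · exact h.1 s (by simp [hs])
  · have h1 := h.2 w' hw' (he.trans (coset_insert hN u x))
    have h2 := ex_replicate χ M t ht p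
    simp only [ex_append] at h1 ⊢
    linarith

theorem Tight.remove [N.Normal] {t : G} (ht : Multiplicative.toAdd (χ t) = M)
    {p : ℕ} (hN : t ^ p ∈ N) {u x : List G}
    (h : Tight χ M S N (u ++ List.replicate p t ++ x)) : Tight χ M S N (u ++ x) := by
  refine ⟨?_, fun w' hw' he => ?_⟩
  · intro s hs
    simp only [List.mem_append] at hs
    rcases hs with hs | hs
    · exact h.1 s (by simp [hs])
    · exact h.1 s (by simp [hs])
  · have h1 := h.2 w' hw' (he.trans (coset_insert hN u x).symm)
    have h2 := ex_replicate χ M t ht p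
    simp only [ex_append] at h1 ⊢
    linarith

/-- every coset contains the value of a tight word -/
theorem exists_tight (hM : ∀ s ∈ S, Multiplicative.toAdd (χ s) ≤ M)
    (hgen : Submonoid.closure S = ⊤) (q : G ⧸ N) :
    ∃ w, Tight χ M S N w ∧ ((w.prod : G) : G ⧸ N) = q := by
  classical
  obtain ⟨g, rfl⟩ := QuotientGroup.mk_surjective q
  have hg : g ∈ Submonoid.closure S := by rw [hgen]; trivial
  obtain ⟨l, hl, hlg⟩ := Submonoid.exists_list_of_mem_closure hg
  have hex : ∃ m : ℕ, ∃ w : List G, (∀ s ∈ w, s ∈ S) ∧ ((w.prod : G) : G ⧸ N) = (g : G ⧸ N) ∧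
      ex χ M w = (m : ℤ) := by
    refine ⟨(ex χ M l).toNat, l, hl, by rw [hlg], ?_⟩
    rw [Int.toNat_of_nonneg (ex_nonneg χ M S hM l hl)]
  obtain ⟨w, hw, hwq, hwe⟩ := Nat.find_spec hex
  refine ⟨w, ⟨hw, fun w' hw' he => ?_⟩, hwq⟩
  by_contra hlt
  push_neg at hlt
  have hnn := ex_nonneg χ M S hM w' hw'
  have h1 : (ex χ M w').toNat < Nat.find hex := by
    have : ((ex χ M w').toNat : ℤ) < (Nat.find hex : ℤ) := by
      rw [Int.toNat_of_nonneg hnn, ← hwe]; exact hlt
    exact_mod_cast this
  exact Nat.find_min hex h1 ⟨w', hw', he.trans hwq, by rw [Int.toNat_of_nonneg hnn]⟩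

theorem finite_words {S : Set G} (hS : S.Finite) (m : ℕ) :
    {l : List G | (∀ s ∈ l, s ∈ S) ∧ l.length ≤ m}.Finite := by
  haveI := hS.to_subtype
  refine ((List.finite_length_le S m).image (List.map Subtype.val)).subset ?_
  rintro l ⟨h1, h2⟩
  refine ⟨l.attach.map (fun x => ⟨x.1, h1 x.1 x.2⟩), ?_, ?_⟩
  · simpa using h2
  · simp

theorem growth_ge {S : Set G} (hS : S.Finite) {r n : ℕ} (f : List.Vector Bool r → List G)
    (hf : Function.Injective f) (hg : ∀ b, IsGeodesic S (f b) ∧ (f b).length ≤ n) :
    2 ^ r ≤ geodesicGrowth S n := by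
  have h1 : (f '' Set.univ).ncard = 2 ^ r := by
    rw [Set.ncard_image_of_injective _ hf, Set.ncard_univ, Nat.card_eq_fintype_card, card_vector,
      Fintype.card_bool]
  rw [← h1, geodesicGrowth]
  refine Set.ncard_le_ncard ?_ ?_
  · rintro _ ⟨b, -, rfl⟩
    exact hg b
  · exact (finite_words hS n).subset (fun l hl => ⟨hl.1.1, hl.2⟩)

section Count

variable [DecidableEq G]

/-- number of letters different from `t` -/
def nt (t : G) (w : List G) : ℕ := w.countP (fun a => decide (a ≠ t))

theorem nt_nil (t : G) : nt t [] = 0 := rfl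

theorem nt_cons_self (t : G) (w : List G) : nt t (t :: w) = nt t w := by
  simp [nt]

theorem nt_cons_ne {t a : G} (h : a ≠ t) (w : List G) : nt t (a :: w) = nt t w + 1 := by
  simp [nt, h]

/-- a word without `p` consecutive letters `t` is short -/
theorem length_le_of_no_run {t : G} {p : ℕ} (w : List G) : ∀ i : ℕ,
    ¬ (List.replicate p t <:+: List.replicate i t ++ w) →
    i + w.length ≤ (nt t w + 1) * p := by
  have key : ∀ (w : List G) (i : ℕ), ¬ (List.replicate p t <:+: List.replicate i t ++ w) →
      i < p := by
    intro w i h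
    by_contra hle
    push_neg at hle
    apply h
    obtain ⟨j, rfl⟩ : ∃ j, i = p + j := ⟨i - p, by omega⟩
    exact ⟨[], List.replicate j t ++ w, by
      rw [List.nil_append, List.replicate_add, List.append_assoc]⟩
  induction w with
  | nil =>
    intro i h
    have := key [] i h
    simp [nt_nil]; omega
  | cons a w ih =>
    intro i h
    by_cases ha : a = t
    · subst ha
      have h1 : List.replicate i a ++ a :: w = List.replicate (i + 1) a ++ w := by
        rw [List.replicate_succ', List.append_assoc]; rfl
      rw [h1] at h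
      have h2 := ih (i + 1) h
      rw [nt_cons_self, List.length_cons]
      omega
    · have h1 := key (a :: w) i h
      have h2 := ih 0 (by
        intro h3
        apply h
        obtain ⟨x, y, hxy⟩ := h3
        refine ⟨List.replicate i t ++ [a] ++ x, y, ?_⟩
        simp only [List.replicate_zero, List.nil_append] at hxy
        rw [← hxy]; simp)
      rw [nt_cons_ne ha, List.length_cons]
      have h3 : (nt t w + 1 + 1) * p = (nt t w + 1) * p + p := by ring
      rw [h3]
      omega

/-- a word with at least `r` letters different from `t` has an initial part with exactly `r` of them -/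
theorem exists_initial (t : G) (w : List G) : ∀ r : ℕ, r ≤ nt t w →
    ∃ u v : List G, w = u ++ v ∧ nt t u = r := by
  induction w with
  | nil => intro r hr; exact ⟨[], [], rfl, by simp [nt_nil] at hr ⊢; omega⟩
  | cons a w ih =>
    intro r hr
    by_cases ha : a = t
    · subst ha
      rw [nt_cons_self] at hr
      obtain ⟨u, v, h1, h2⟩ := ih r hr
      exact ⟨a :: u, v, by rw [h1]; rfl, by rw [nt_cons_self, h2]⟩
    · rw [nt_cons_ne ha] at hr
      rcases Nat.eq_zero_or_pos r with h0 | h0
      · exact ⟨[], a :: w, rfl, by rw [h0]; rfl⟩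
      · obtain ⟨u, v, h1, h2⟩ := ih (r - 1) (by omega)
        exact ⟨a :: u, v, by rw [h1]; rfl, by rw [nt_cons_ne ha, h2]; omega⟩

/-- Insert the block `t ^ p` in front of the letters different from `t` selected by the list of
booleans. -/
def ins (t : G) (p : ℕ) : List G → List Bool → List G
  | [], _ => []
  | a :: w, b =>
    if a = t then a :: ins t p w b
    else match b with
      | [] => a :: ins t p w []
      | true :: b' => List.replicate p t ++ a :: ins t p w b'
      | false :: b' => a :: ins t p w b'

theorem ins_length (t : G) (p : ℕ) (w : List G) : ∀ b : List Bool,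
    (ins t p w b).length ≤ w.length + p * b.length := by
  induction w with
  | nil => intro b; simp [ins]
  | cons a w ih =>
    intro b
    by_cases ha : a = t
    · have h1 := ih b
      simp only [ins, ha, if_true, List.length_cons]
      omega
    · match b with
      | [] =>
        have h1 := ih []
        simp only [ins, ha, if_false, List.length_cons]
        omega
      | true :: b' =>
        have h1 := ih b'
        simp only [ins, ha, if_false, List.length_cons, List.length_append,
          List.length_replicate]
        have : p * (b'.length + 1) = p * b'.length + p := by ring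
        rw [this]; omega
      | false :: b' =>
        have h1 := ih b'
        simp only [ins, ha, if_false, List.length_cons]
        have : p * (b'.length + 1) = p * b'.length + p := by ring
        rw [this]; omega

theorem ins_inj (t : G) {p : ℕ} (hp : 0 < p) (w : List G) : ∀ b b' : List Bool,
    b.length = nt t w → b'.length = nt t w → ins t p w b = ins t p w b' → b = b' := by
  induction w with
  | nil =>
    intro b b' h1 h2 _
    rw [nt_nil] at h1 h2
    rw [List.length_eq_zero_iff] at h1 h2
    rw [h1, h2]
  | cons a w ih =>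
    intro b b' h1 h2 h
    by_cases ha : a = t
    · subst ha
      rw [nt_cons_self] at h1 h2
      simp only [ins, if_true, List.cons.injEq, true_and] at h
      exact ih b b' h1 h2 h
    · rw [nt_cons_ne ha] at h1 h2
      obtain ⟨q, rfl⟩ : ∃ q, p = q + 1 := ⟨p - 1, by omega⟩
      match b, b', h1, h2, h with
      | true :: c, true :: c', h1, h2, h =>
        simp only [ins, ha, if_false] at h
        have h3 := List.append_cancel_left h
        simp only [List.cons.injEq, true_and] at h3
        rw [ih c c' (by simpa using h1) (by simpa using h2) h3]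
      | false :: c, false :: c', h1, h2, h =>
        simp only [ins, ha, if_false, List.cons.injEq, true_and] at h
        rw [ih c c' (by simpa using h1) (by simpa using h2) h]
      | true :: c, false :: c', h1, h2, h =>
        simp only [ins, ha, if_false, List.replicate_succ, List.cons_append,
          List.cons.injEq] at h
        exact absurd h.1.symm ha
      | false :: c, true :: c', h1, h2, h =>
        simp only [ins, ha, if_false, List.replicate_succ, List.cons_append,
          List.cons.injEq] at h
        exact h.1.elim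

theorem ins_tight [N.Normal] {t : G} (htS : t ∈ S) (ht : Multiplicative.toAdd (χ t) = M)
    {p : ℕ} (hN : t ^ p ∈ N) (w : List G) : ∀ (b : List Bool) (u : List G),
    Tight χ M S N (u ++ w) → Tight χ M S N (u ++ ins t p w b) := by
  induction w with
  | nil => intro b u h; simpa [ins] using h
  | cons a w ih =>
    intro b u h
    have step : ∀ (b' : List Bool) (u' : List G), Tight χ M S N (u' ++ a :: w) →
        Tight χ M S N (u' ++ a :: ins t p w b') := by
      intro b' u' h'
      have h1 := ih b' (u' ++ [a]) (by simpa using h')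
      simpa using h1
    by_cases ha : a = t
    · simp only [ins, ha, if_true]
      have := step b u h
      rwa [ha] at this
    · match b with
      | [] => simp only [ins, ha, if_false]; exact step [] u h
      | true :: b' =>
        simp only [ins, ha, if_false]
        have h1 := step b' (u ++ List.replicate p t) (h.insert htS ht hN)
        simpa using h1
      | false :: b' => simp only [ins, ha, if_false]; exact step b' u h

/-- If `N` has infinite index, there are tight words without long runs of `t` having any given
number of letters different from `t`. -/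
theorem exists_tight_nt [N.Normal] {t : G} (ht : Multiplicative.toAdd (χ t) = M)
    (hM : ∀ s ∈ S, Multiplicative.toAdd (χ s) ≤ M) (hS : S.Finite)
    (hgen : Submonoid.closure S = ⊤) {p : ℕ} (hp : 0 < p) (hN : t ^ p ∈ N)
    (hind : N.index = 0) (r : ℕ) :
    ∃ w, Tight χ M S N w ∧ nt t w = r ∧ w.length ≤ (r + 1) * p := by
  -- minimal length gives no runs
  have norun : ∀ w : List G, Tight χ M S N w →
      (∀ w', Tight χ M S N w' → ((w'.prod : G) : G ⧸ N) = ((w.prod : G) : G ⧸ N) →
        nt t w' = nt t w → w.length ≤ w'.length) → w.length ≤ (nt t w + 1) * p := by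
    intro w hw hmin
    have h1 : ¬ (List.replicate p t <:+: List.replicate 0 t ++ w) := by
      rintro ⟨x, y, hxy⟩
      simp only [List.replicate_zero, List.nil_append] at hxy
      have h2 : Tight χ M S N (x ++ List.replicate p t ++ y) := by rw [hxy]; exact hw
      have h3 := h2.remove ht hN
      have h4 : (((x ++ y).prod : G) : G ⧸ N) = ((w.prod : G) : G ⧸ N) := by
        rw [← hxy, coset_insert hN]
      have h5 : nt t (x ++ y) = nt t w := by
        rw [← hxy]; simp [nt, List.countP_append, List.countP_replicate]
      have h6 := hmin _ h3 h4 h5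
      rw [← hxy] at h6
      simp only [List.length_append, List.length_replicate] at h6
      omega
    have := length_le_of_no_run w 0 h1
    omega
  by_cases hex : ∃ w, Tight χ M S N w ∧ r ≤ nt t w
  · obtain ⟨w, hw, hr⟩ := hex
    obtain ⟨u, v, huv, hu⟩ := exists_initial t w r hr
    have hut : Tight χ M S N u := by
      have : Tight χ M S N ([] ++ u ++ v) := by simpa [huv] using hw
      exact this.mid
    have hex2 : ∃ m : ℕ, ∃ w, Tight χ M S N w ∧ ((w.prod : G) : G ⧸ N) = ((u.prod : G) : G ⧸ N) ∧
        nt t w = nt t u ∧ w.length = m := ⟨u.length, u, hut, rfl, rfl, rfl⟩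
    classical
    obtain ⟨w', h1, h2, h3, h4⟩ := Nat.find_spec hex2
    refine ⟨w', h1, by rw [h3, hu], ?_⟩
    have h5 := norun w' h1 (fun w'' a b c => by
      rw [h4]; exact Nat.find_min' hex2 ⟨w'', a, b.trans h2, c.trans h3, rfl⟩)
    rwa [h3, hu] at h5
  · exfalso
    push_neg at hex
    have hfin : {l : List G | (∀ s ∈ l, s ∈ S) ∧ l.length ≤ (r + 1) * p}.Finite :=
      finite_words hS _
    have hfinq : Finite (G ⧸ N) := by
      have : Set.SurjOn (fun l : List G => ((l.prod : G) : G ⧸ N))
          {l : List G | (∀ s ∈ l, s ∈ S) ∧ l.length ≤ (r + 1) * p} Set.univ := by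
        intro q _
        obtain ⟨w, hw, hwq⟩ := exists_tight (χ := χ) (N := N) hM hgen q
        have hex2 : ∃ m : ℕ, ∃ w', Tight χ M S N w' ∧
            ((w'.prod : G) : G ⧸ N) = ((w.prod : G) : G ⧸ N) ∧
            nt t w' = nt t w ∧ w'.length = m := ⟨w.length, w, hw, rfl, rfl, rfl⟩
        classical
        obtain ⟨w', h1, h2, h3, h4⟩ := Nat.find_spec hex2
        have h5 := norun w' h1 (fun w'' a b c => by
          rw [h4]; exact Nat.find_min' hex2 ⟨w'', a, b.trans h2, c.trans h3, rfl⟩)
        have h6 := hex w' h1
        refine ⟨w', ⟨h1.1, h5.trans ?_⟩, by simp only [h2, hwq]⟩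
        exact Nat.mul_le_mul_right p (by omega)
      have h := hfin.of_surjOn _ this
      exact Set.finite_univ_iff.1 h
    exact Subgroup.index_ne_zero_of_finite hind

/-- infinite index of the normal closure of a power of `t` forces exponential geodesic growth -/
theorem expo_of_index {t : G} (htS : t ∈ S) (ht : Multiplicative.toAdd (χ t) = M) (hM0 : 0 < M)
    (hM : ∀ s ∈ S, Multiplicative.toAdd (χ s) ≤ M) (hS : S.Finite)
    (hgen : Submonoid.closure S = ⊤) [N.Normal] {p : ℕ} (hp : 0 < p) (hN : t ^ p ∈ N)
    (hind : N.index = 0) : ∀ n, 2 ^ (n / (3 * p)) ≤ geodesicGrowth S n := by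
  intro n
  rcases Nat.eq_zero_or_pos (n / (3 * p)) with h0 | h0
  · rw [h0]
    refine growth_ge hS (r := 0) (fun _ => []) (fun b b' _ => Subsingleton.elim _ _) ?_
    intro _
    exact ⟨⟨by simp, fun _ _ _ => Nat.zero_le _⟩, Nat.zero_le _⟩
  obtain ⟨w, hw, hr, hlen⟩ := exists_tight_nt (χ := χ) ht hM hS hgen hp hN hind (n / (3 * p))
  refine growth_ge hS (fun b => ins t p w b.1) ?_ ?_
  · intro b b' h
    exact Subtype.ext (ins_inj t hp w b.1 b'.1 (by rw [hr]; exact b.2) (by rw [hr]; exact b'.2) h)
  · intro b
    have h1 : Tight χ M S N ([] ++ ins t p w b.1) := ins_tight htS ht hN w b.1 [] hw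
    refine ⟨(show Tight χ M S N (ins t p w b.1) from h1).geodesic hM0, ?_⟩
    have h2 := ins_length t p w b.1
    rw [b.2] at h2
    have h3 : n / (3 * p) * (3 * p) ≤ n := Nat.div_mul_le_self n (3 * p)
    have h4 : (n / (3 * p) + 1) * p ≤ 2 * (n / (3 * p)) * p := Nat.mul_le_mul_right p (by omega)
    have h5 : n / (3 * p) * (3 * p) = 2 * (n / (3 * p)) * p + p * (n / (3 * p)) := by ring
    omega

end Count

/-- two letters with the maximal value of `χ` give exponential geodesic growth -/
theorem expo_of_two {s t : G} (hs : s ∈ S) (ht : t ∈ S) (hst : s ≠ t)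
    (hsM : Multiplicative.toAdd (χ s) = M) (htM : Multiplicative.toAdd (χ t) = M) (hM0 : 0 < M)
    (hM : ∀ s ∈ S, Multiplicative.toAdd (χ s) ≤ M) (hS : S.Finite) :
    ∀ n, 2 ^ (n / 1) ≤ geodesicGrowth S n := by
  intro n
  rw [Nat.div_one]
  have key : ∀ b : List Bool, (∀ a ∈ b.map (fun c => if c then s else t), a ∈ S) ∧
      ex χ M (b.map (fun c => if c then s else t)) = 0 := by
    intro b
    induction b with
    | nil => simp [ex, cv]
    | cons c b ih =>
      refine ⟨?_, ?_⟩
      · intro a ha
        rw [List.map_cons, List.mem_cons] at ha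
        rcases ha with ha | ha
        · rw [ha]; cases c
          · exact ht
          · exact hs
        · exact ih.1 a ha
      · have h1 : (c :: b).map (fun c => if c then s else t) =
            [if c then s else t] ++ b.map (fun c => if c then s else t) := rfl
        rw [h1, ex_append, ih.2, add_zero]
        cases c
        · simp [ex, cv, htM]
        · simp [ex, cv, hsM]
  refine growth_ge hS (fun b => b.1.map (fun c => if c then s else t)) ?_ ?_
  · intro b b' h
    apply Subtype.ext
    have hinj : Function.Injective (fun c : Bool => if c then s else t) := by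
      intro c c' hc
      cases c <;> cases c' <;> simp_all
    exact List.map_injective_iff.2 hinj h
  · intro b
    obtain ⟨h1, h2⟩ := key b.1
    refine ⟨⟨h1, fun l' hl' he => ?_⟩, by simp⟩
    have h3 := ex_nonneg χ M S hM l' hl'
    have h4 : cv χ l' = cv χ (b.1.map (fun c => if c then s else t)) := by simp only [cv, he]
    simp only [ex] at h2 h3
    rw [h4] at h3
    have h5 : M * (((b.1.map (fun c => if c then s else t)).length : ℕ) : ℤ) ≤
        M * (l'.length : ℤ) := by linarith
    exact_mod_cast le_of_mul_le_mul_left h5 hM0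

/-- **Normal closure criterion.** -/
theorem normalClosure_criterion (χ : G →* Multiplicative ℤ) (hχ : χ ≠ 1) (S : Set G)
    (hS : S.Finite) (hgen : Submonoid.closure S = ⊤)
    (hγ : ¬ ∃ K : ℕ, 0 < K ∧ ∀ n, 2 ^ (n / K) ≤ geodesicGrowth S n) :
    ∃ t ∈ S, (∀ s ∈ S, s ≠ t → Multiplicative.toAdd (χ s) < Multiplicative.toAdd (χ t)) ∧
      ∀ p : ℕ, 0 < p → (Subgroup.normalClosure {t ^ p}).FiniteIndex := by
  classical
  -- some letter has positive value
  have hpos : ∃ s ∈ S, 0 < Multiplicative.toAdd (χ s) := by
    by_contra hcon
    push_neg at hcon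
    have hall : ∀ g : G, Multiplicative.toAdd (χ g) ≤ 0 := by
      intro g
      have hg : g ∈ Submonoid.closure S := by rw [hgen]; trivial
      induction hg using Submonoid.closure_induction with
      | mem x hx => exact hcon x hx
      | one => simp
      | mul x y _ _ hx hy => rw [map_mul, toAdd_mul]; linarith
    apply hχ
    ext g
    have h1 := hall g
    have h2 := hall g⁻¹
    rw [map_inv, toAdd_inv] at h2
    have h3 : Multiplicative.toAdd (χ g) = 0 := by linarith
    simpa using h3
  obtain ⟨s₀, hs₀, hs₀p⟩ := hpos
  obtain ⟨t, htS, htmax⟩ :=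
    Set.exists_max_image S (fun s => Multiplicative.toAdd (χ s)) hS ⟨s₀, hs₀⟩
  have hM0 : 0 < Multiplicative.toAdd (χ t) := lt_of_lt_of_le hs₀p (htmax s₀ hs₀)
  refine ⟨t, htS, ?_, ?_⟩
  · intro s hs hst
    rcases lt_or_eq_of_le (htmax s hs) with h | h
    · exact h
    · exact absurd ⟨1, one_pos, expo_of_two hs htS hst h rfl hM0 htmax hS⟩ hγ
  · intro p hp
    by_contra hnot
    have hind : (Subgroup.normalClosure {t ^ p}).index = 0 := by
      by_contra h
      exact hnot ⟨h⟩
    exact hγ ⟨3 * p, by omega, expo_of_index (N := Subgroup.normalClosure {t ^ p}) htS rfl hM0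
      htmax hS hgen hp (Subgroup.subset_normalClosure rfl) hind⟩

end Pool.Agent.Helper93.Geo
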