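import Pool.Agent.Helper90.SpinalDefs

/-!
Definitions for the tie criterion: volume growth, ties and the tie number.
-/

namespace Pool.Agent.Helper93.Geo

open Pool.Agent.Helper90.Spinal

variable {G : Type*} [Group G]

/-- The volume growth function: the number of elements of length at most `n` over `S`. -/
noncomputable def volumeGrowth (S : Set G) (n : ℕ) : ℕ :=
  Set.ncard {g : G | ∃ l : List G, (∀ s ∈ l, s ∈ S) ∧ l.length ≤ n ∧ l.prod = g}

/-- A tie: a geodesic word which is not the only geodesic word for its value. -/
def IsTied (S : Set G) (u : List G) : Prop :=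
  IsGeodesic S u ∧ ∃ v : List G, IsGeodesic S v ∧ v ≠ u ∧ v.prod = u.prod

/-- The word `w` contains `k` pairwise disjoint ties of length at most `N`. -/
def HasTies (S : Set G) (N k : ℕ) (w : List G) : Prop :=
  ∃ (L : List (List G × List G)) (r : List G),
    w = (L.map (fun x => x.1 ++ x.2)).flatten ++ r ∧ L.length = k ∧
      ∀ x ∈ L, x.2.length ≤ N ∧ IsTied S x.2

/-- The largest number of pairwise disjoint ties of length at most `N` in a geodesic word of
length at most `n`. -/
noncomputable def tieNumber (S : Set G) (N n : ℕ) : ℕ :=
  sSup {k : ℕ | ∃ w : List G, IsGeodesic S w ∧ w.length ≤ n ∧ HasTies S N k w}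

end Pool.Agent.Helper93.Geo
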