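import Mathlib
import Pool.Agent.Helper93.Geo.NormalClosure
import Pool.Agent.Helper93.Geo.TieDefs

/-!
The tie criterion: for subexponential volume growth, the geodesic growth is subexponential if and
only if geodesic words have ties of bounded length with density zero only.
-/

namespace Pool.Agent.Helper93.Geo

open Pool.Agent.Helper90.Spinal Filter Topology

variable {G : Type*} [Group G]

section Upper

variable {S : Set G}

theorem IsGeodesic.length_eq {u v : List G} (hu : IsGeodesic S u) (hv : IsGeodesic S v)
    (h : v.prod = u.prod) : v.length = u.length :=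
  le_antisymm (hv.2 u hu.1 h.symm) (hu.2 v hv.1 h)

theorem IsGeodesic.of_prod_length {u v : List G} (hu : IsGeodesic S u) (hv : ∀ s ∈ v, s ∈ S)
    (h : v.prod = u.prod) (hl : v.length = u.length) : IsGeodesic S v :=
  ⟨hv, fun l' hl' he => by rw [hl]; exact hu.2 l' hl' (he.trans h)⟩

theorem IsGeodesic.mid {u v x : List G} (h : IsGeodesic S (u ++ v ++ x)) : IsGeodesic S v := by
  refine ⟨fun s hs => h.1 s (by simp [hs]), fun v' hv' he => ?_⟩
  have h1 := h.2 (u ++ v' ++ x) (by
    intro s hs
    simp only [List.mem_append] at hs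
    rcases hs with (hs | hs) | hs
    · exact h.1 s (by simp [hs])
    · exact hv' s hs
    · exact h.1 s (by simp [hs])) (by simp only [List.prod_append, he])
  simp only [List.length_append] at h1
  omega

theorem IsTied.length_pos {u : List G} (h : IsTied S u) : 0 < u.length := by
  rcases Nat.eq_zero_or_pos u.length with h0 | h0
  · obtain ⟨hu, v, hv, hne, hp⟩ := h
    have h1 := IsGeodesic.length_eq hu hv hp
    rw [h0, List.length_eq_zero_iff] at h1
    rw [List.length_eq_zero_iff] at h0
    exact absurd (h1.trans h0.symm) hne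
  · exact h0

open Classical in
/-- another geodesic word for the value of a tie -/
noncomputable def other (S : Set G) (u : List G) : List G :=
  if h : IsTied S u then h.2.choose else u

theorem other_spec {u : List G} (h : IsTied S u) :
    IsGeodesic S (other S u) ∧ other S u ≠ u ∧ (other S u).prod = u.prod := by
  have : other S u = h.2.choose := by simp [other, h]
  rw [this]
  exact h.2.choose_spec

/-- replace the ties selected by the booleans -/
noncomputable def rep (S : Set G) : List (List G × List G) → List Bool → List G → List G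
  | [], _, r => r
  | x :: L, [], r => x.1 ++ x.2 ++ rep S L [] r
  | x :: L, true :: b, r => x.1 ++ other S x.2 ++ rep S L b r
  | x :: L, false :: b, r => x.1 ++ x.2 ++ rep S L b r

theorem rep_spec (L : List (List G × List G)) (r : List G) (hL : ∀ x ∈ L, IsTied S x.2)
    (hm : ∀ s ∈ (L.map (fun x => x.1 ++ x.2)).flatten ++ r, s ∈ S) : ∀ b : List Bool,
    (∀ s ∈ rep S L b r, s ∈ S) ∧
    (rep S L b r).prod = ((L.map (fun x => x.1 ++ x.2)).flatten ++ r).prod ∧
    (rep S L b r).length = ((L.map (fun x => x.1 ++ x.2)).flatten ++ r).length := by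
  induction L with
  | nil => intro b; simpa [rep] using hm
  | cons x L ih =>
    have hx := hL x List.mem_cons_self
    have hm' : ∀ s ∈ (L.map (fun x => x.1 ++ x.2)).flatten ++ r, s ∈ S := by
      intro s hs
      apply hm
      simp only [List.map_cons, List.flatten_cons, List.mem_append] at hs ⊢
      tauto
    have hx1 : ∀ s ∈ x.1, s ∈ S := fun s hs => hm s (by
      simp only [List.map_cons, List.flatten_cons, List.mem_append]; tauto)
    have hx2 : ∀ s ∈ x.2, s ∈ S := fun s hs => hm s (by
      simp only [List.map_cons, List.flatten_cons, List.mem_append]; tauto)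
    have ih' := ih (fun y hy => hL y (List.mem_cons_of_mem _ hy)) hm'
    obtain ⟨o1, o2, o3⟩ := other_spec hx
    have o4 := IsGeodesic.length_eq hx.1 o1 o3
    have hflat : ((x :: L).map (fun x => x.1 ++ x.2)).flatten ++ r =
        x.1 ++ x.2 ++ ((L.map (fun x => x.1 ++ x.2)).flatten ++ r) := by
      simp [List.append_assoc]
    intro b
    rw [hflat]
    match b with
    | [] =>
      obtain ⟨a1, a2, a3⟩ := ih' []
      refine ⟨?_, ?_, ?_⟩
      · intro s hs
        simp only [rep, List.mem_append] at hs
        rcases hs with (hs | hs) | hs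
        · exact hx1 s hs
        · exact hx2 s hs
        · exact a1 s hs
      · simp only [rep, List.prod_append] at a2 ⊢; rw [a2]
      · simp only [rep, List.length_append] at a3 ⊢; rw [a3]
    | true :: b =>
      obtain ⟨a1, a2, a3⟩ := ih' b
      refine ⟨?_, ?_, ?_⟩
      · intro s hs
        simp only [rep, List.mem_append] at hs
        rcases hs with (hs | hs) | hs
        · exact hx1 s hs
        · exact o1.1 s hs
        · exact a1 s hs
      · simp only [rep, List.prod_append] at a2 ⊢; rw [a2, o3]
      · simp only [rep, List.length_append] at a3 ⊢; rw [a3, o4]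
    | false :: b =>
      obtain ⟨a1, a2, a3⟩ := ih' b
      refine ⟨?_, ?_, ?_⟩
      · intro s hs
        simp only [rep, List.mem_append] at hs
        rcases hs with (hs | hs) | hs
        · exact hx1 s hs
        · exact hx2 s hs
        · exact a1 s hs
      · simp only [rep, List.prod_append] at a2 ⊢; rw [a2]
      · simp only [rep, List.length_append] at a3 ⊢; rw [a3]

theorem rep_inj (L : List (List G × List G)) (r : List G) (hL : ∀ x ∈ L, IsTied S x.2) :
    ∀ b b' : List Bool, b.length = L.length → b'.length = L.length →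
      rep S L b r = rep S L b' r → b = b' := by
  induction L with
  | nil =>
    intro b b' h1 h2 _
    simp only [List.length_nil, List.length_eq_zero_iff] at h1 h2
    rw [h1, h2]
  | cons x L ih =>
    have hx := hL x List.mem_cons_self
    have ih' := ih (fun y hy => hL y (List.mem_cons_of_mem _ hy))
    obtain ⟨o1, o2, o3⟩ := other_spec hx
    have o4 := IsGeodesic.length_eq hx.1 o1 o3
    intro b b' h1 h2 h
    match b, b', h1, h2, h with
    | true :: c, true :: c', h1, h2, h =>
      simp only [rep] at h
      have h3 := List.append_cancel_left h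
      rw [ih' c c' (by simpa using h1) (by simpa using h2) h3]
    | false :: c, false :: c', h1, h2, h =>
      simp only [rep] at h
      have h3 := List.append_cancel_left h
      rw [ih' c c' (by simpa using h1) (by simpa using h2) h3]
    | true :: c, false :: c', h1, h2, h =>
      simp only [rep] at h
      have h3 := (List.append_inj h (by simp [o4])).1
      exact absurd (List.append_cancel_left h3) o2
    | false :: c, true :: c', h1, h2, h =>
      simp only [rep] at h
      have h3 := (List.append_inj h (by simp [o4])).1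
      exact absurd (List.append_cancel_left h3).symm o2

theorem HasTies.le_length {N k : ℕ} {w : List G} (h : HasTies S N k w) : k ≤ w.length := by
  obtain ⟨L, r, rfl, rfl, hL⟩ := h
  have : L.length ≤ ((L.map (fun x => x.1 ++ x.2)).flatten).length := by
    induction L with
    | nil => simp
    | cons x L ih =>
      have h1 := ih (fun y hy => hL y (List.mem_cons_of_mem _ hy))
      have h2 := (hL x List.mem_cons_self).2.length_pos
      simp only [List.map_cons, List.flatten_cons, List.length_append, List.length_cons] at h1 ⊢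
      omega
  rw [List.length_append]
  omega

theorem isGeodesic_nil : IsGeodesic S [] := ⟨by simp, fun _ _ _ => Nat.zero_le _⟩

theorem tieNumber_mem (S : Set G) (N n : ℕ) :
    ∃ w : List G, IsGeodesic S w ∧ w.length ≤ n ∧ HasTies S N (tieNumber S N n) w := by
  have h1 : {k : ℕ | ∃ w : List G, IsGeodesic S w ∧ w.length ≤ n ∧ HasTies S N k w}.Nonempty :=
    ⟨0, [], isGeodesic_nil, Nat.zero_le _, [], [], by simp, rfl, by simp⟩
  have h2 : BddAbove {k : ℕ | ∃ w : List G, IsGeodesic S w ∧ w.length ≤ n ∧ HasTies S N k w} :=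
    ⟨n, by rintro k ⟨w, _, hw, hk⟩; exact hk.le_length.trans hw⟩
  exact Nat.sSup_mem h1 h2

theorem le_tieNumber {N n k : ℕ} {w : List G} (hw : IsGeodesic S w) (hn : w.length ≤ n)
    (hk : HasTies S N k w) : k ≤ tieNumber S N n := by
  have h2 : BddAbove {k : ℕ | ∃ w : List G, IsGeodesic S w ∧ w.length ≤ n ∧ HasTies S N k w} :=
    ⟨n, by rintro k ⟨w, _, hw, hk⟩; exact hk.le_length.trans hw⟩
  exact le_csSup h2 ⟨w, hw, hn, hk⟩

/-- ties give many geodesic words -/
theorem two_pow_tieNumber_le (hS : S.Finite) (N n : ℕ) :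
    2 ^ tieNumber S N n ≤ geodesicGrowth S n := by
  obtain ⟨w, hw, hn, L, r, hwL, hk, hL⟩ := tieNumber_mem S N n
  rw [← hk]
  subst hwL
  have hL' : ∀ x ∈ L, IsTied S x.2 := fun x hx => (hL x hx).2
  refine growth_ge hS (fun b : List.Vector Bool L.length => rep S L b.1 r) ?_ ?_
  · intro b b' h
    exact Subtype.ext (rep_inj L r hL' b.1 b'.1 b.2 b'.2 h)
  · intro b
    obtain ⟨a1, a2, a3⟩ := rep_spec L r hL' hw.1 b.1
    exact ⟨IsGeodesic.of_prod_length hw a1 a2 a3, by rw [a3]; exact hn⟩

end Upper

section Lower

variable {S : Set G}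

/-- words over `S` of length `m` -/
def wordsOf (S : Set G) (m : ℕ) : Set (List G) := {l | (∀ s ∈ l, s ∈ S) ∧ l.length = m}

theorem wordsOf_finite (hS : S.Finite) (m : ℕ) : (wordsOf S m).Finite :=
  (finite_words hS m).subset (fun _ hl => ⟨hl.1, hl.2.le⟩)

theorem ball_finite (hS : S.Finite) (n : ℕ) :
    {g : G | ∃ l : List G, (∀ s ∈ l, s ∈ S) ∧ l.length ≤ n ∧ l.prod = g}.Finite := by
  refine ((finite_words hS n).image List.prod).subset ?_
  rintro g ⟨l, h1, h2, h3⟩
  exact ⟨l, ⟨h1, h2⟩, h3⟩

theorem one_le_volumeGrowth (hS : S.Finite) (n : ℕ) : 1 ≤ volumeGrowth S n := by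
  rw [volumeGrowth]
  exact (Set.ncard_pos (ball_finite hS n)).2 ⟨1, [], by simp, Nat.zero_le _, rfl⟩

theorem ncard_image2_le {α β γ : Type*} (f : α → β → γ) {s : Set α} {t : Set β} (hs : s.Finite)
    (ht : t.Finite) : (Set.image2 f s t).ncard ≤ s.ncard * t.ncard := by
  rw [← Set.image_prod, ← Set.ncard_prod]
  exact Set.ncard_image_le (hs.prod ht)

/-- geodesic words of length `L * q` (in `q` blocks of length `L`) with at most `J` tied blocks;
`blk q J w` says that `w` is a concatenation of `q` blocks of length `L`, at most `J` of them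
tied. -/
inductive Blk (S : Set G) (L : ℕ) : ℕ → ℕ → List G → Prop
  | nil (J : ℕ) : Blk S L 0 J []
  | free {q J : ℕ} {u w : List G} (hu : u.length = L) (hS : ∀ s ∈ u, s ∈ S)
      (hg : IsGeodesic S u) (ht : ¬ IsTied S u) (hw : Blk S L q J w) : Blk S L (q + 1) J (u ++ w)
  | tied {q J : ℕ} {u w : List G} (hu : u.length = L) (hS : ∀ s ∈ u, s ∈ S)
      (hw : Blk S L q J w) : Blk S L (q + 1) (J + 1) (u ++ w)

theorem free_ncard_le (hS : S.Finite) (L : ℕ) :
    Set.ncard {u : List G | u.length = L ∧ IsGeodesic S u ∧ ¬ IsTied S u} ≤ volumeGrowth S L := by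
  rw [volumeGrowth]
  refine Set.ncard_le_ncard_of_injOn List.prod ?_ ?_ ?_
  · rintro u ⟨h1, h2, h3⟩
    exact ⟨u, h2.1, h1.le, rfl⟩
  · rintro u ⟨h1, h2, h3⟩ v ⟨h4, h5, h6⟩ he
    by_contra hne
    exact h3 ⟨h2, v, h5, fun h => hne h.symm, he.symm⟩
  · refine ((finite_words hS L).image List.prod).subset ?_
    rintro g ⟨l, h1, h2, h3⟩
    exact ⟨l, ⟨h1, h2⟩, h3⟩

theorem blk_finite (hS : S.Finite) (L q J : ℕ) : {w : List G | Blk S L q J w}.Finite := by
  refine (wordsOf_finite hS (L * q)).subset ?_
  intro w hw
  simp only [Set.mem_setOf_eq] at hw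
  induction hw with
  | nil J => exact ⟨by simp, by simp⟩
  | free hu hS' hg ht hw ih =>
    refine ⟨?_, by rw [List.length_append, hu, ih.2]; ring⟩
    intro s hs
    rcases List.mem_append.1 hs with h | h
    · exact hS' s h
    · exact ih.1 s h
  | tied hu hS' hw ih =>
    refine ⟨?_, by rw [List.length_append, hu, ih.2]; ring⟩
    intro s hs
    rcases List.mem_append.1 hs with h | h
    · exact hS' s h
    · exact ih.1 s h

theorem blk_ncard_le (hS : S.Finite) (L : ℕ) : ∀ q J : ℕ,
    Set.ncard {w : List G | Blk S L q J w} ≤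
      (2 * volumeGrowth S L) ^ q * ((wordsOf S L).ncard + 1) ^ J := by
  intro q
  induction q with
  | zero =>
    intro J
    have h1 : {w : List G | Blk S L 0 J w} ⊆ {[]} := by
      intro w hw
      simp only [Set.mem_setOf_eq] at hw
      cases hw
      rfl
    calc Set.ncard {w : List G | Blk S L 0 J w} ≤ Set.ncard {([] : List G)} :=
          Set.ncard_le_ncard h1 (Set.finite_singleton _)
      _ = 1 := Set.ncard_singleton _
      _ ≤ _ := Nat.one_le_iff_ne_zero.2 (by positivity)
  | succ q ih =>
    intro J
    set b := volumeGrowth S L with hb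
    set c := (wordsOf S L).ncard + 1 with hc
    have hb1 : 1 ≤ b := one_le_volumeGrowth hS L
    have hfree : Set.ncard (Set.image2 (fun u w => u ++ w)
        {u : List G | u.length = L ∧ IsGeodesic S u ∧ ¬ IsTied S u} {w | Blk S L q J w}) ≤
        b * ((2 * b) ^ q * c ^ J) := by
      refine (ncard_image2_le _ ?_ ?_).trans (Nat.mul_le_mul (free_ncard_le hS L) (ih J))
      · exact (wordsOf_finite hS L).subset (fun u hu => ⟨hu.2.1.1, hu.1⟩)
      · exact blk_finite hS L q J
    rcases Nat.eq_zero_or_pos J with h0 | h0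
    · subst h0
      have hsub : {w : List G | Blk S L (q + 1) 0 w} ⊆ Set.image2 (fun u w => u ++ w)
          {u : List G | u.length = L ∧ IsGeodesic S u ∧ ¬ IsTied S u} {w | Blk S L q 0 w} := by
        intro w hw
        simp only [Set.mem_setOf_eq] at hw
        cases hw with
        | free hu hS' hg ht hw => exact ⟨_, ⟨hu, hg, ht⟩, _, hw, rfl⟩
      refine (Set.ncard_le_ncard hsub ?_).trans (hfree.trans ?_)
      · refine Set.Finite.image2 _ ?_ (blk_finite hS L q 0)
        exact (wordsOf_finite hS L).subset (fun u hu => ⟨hu.2.1.1, hu.1⟩)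
      · calc b * ((2 * b) ^ q * c ^ 0) ≤ (2 * b) * ((2 * b) ^ q * c ^ 0) :=
              Nat.mul_le_mul_right _ (by omega)
          _ = (2 * b) ^ (q + 1) * c ^ 0 := by ring
    · obtain ⟨J', rfl⟩ : ∃ J', J = J' + 1 := ⟨J - 1, by omega⟩
      have hsub : {w : List G | Blk S L (q + 1) (J' + 1) w} ⊆ Set.image2 (fun u w => u ++ w)
          {u : List G | u.length = L ∧ IsGeodesic S u ∧ ¬ IsTied S u}
            {w | Blk S L q (J' + 1) w} ∪
          Set.image2 (fun u w => u ++ w) (wordsOf S L) {w | Blk S L q J' w} := by
        intro w hw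
        simp only [Set.mem_setOf_eq] at hw
        cases hw with
        | free hu hS' hg ht hw => exact Or.inl ⟨_, ⟨hu, hg, ht⟩, _, hw, rfl⟩
        | tied hu hS' hw => exact Or.inr ⟨_, ⟨hS', hu⟩, _, hw, rfl⟩
      have hf1 : (Set.image2 (fun u w => u ++ w)
          {u : List G | u.length = L ∧ IsGeodesic S u ∧ ¬ IsTied S u}
            {w | Blk S L q (J' + 1) w}).Finite :=
        Set.Finite.image2 _ ((wordsOf_finite hS L).subset (fun u hu => ⟨hu.2.1.1, hu.1⟩))
          (blk_finite hS L q _)
      have hf2 : (Set.image2 (fun u w => u ++ w) (wordsOf S L) {w | Blk S L q J' w}).Finite :=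
        Set.Finite.image2 _ (wordsOf_finite hS L) (blk_finite hS L q _)
      have htied : Set.ncard (Set.image2 (fun u w => u ++ w) (wordsOf S L)
          {w | Blk S L q J' w}) ≤ c * ((2 * b) ^ q * c ^ J') :=
        (ncard_image2_le _ (wordsOf_finite hS L) (blk_finite hS L q J')).trans
          (Nat.mul_le_mul (by omega) (ih J'))
      calc Set.ncard {w : List G | Blk S L (q + 1) (J' + 1) w}
          ≤ _ := Set.ncard_le_ncard hsub (hf1.union hf2)
        _ ≤ _ := Set.ncard_union_le _ _
        _ ≤ b * ((2 * b) ^ q * c ^ (J' + 1)) + c * ((2 * b) ^ q * c ^ J') :=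
            Nat.add_le_add hfree htied
        _ = (b + 1) * ((2 * b) ^ q * c ^ (J' + 1)) := by ring
        _ ≤ (2 * b) * ((2 * b) ^ q * c ^ (J' + 1)) := Nat.mul_le_mul_right _ (by omega)
        _ = (2 * b) ^ (q + 1) * c ^ (J' + 1) := by ring

theorem Blk.mono {L q J w} (h : Blk S L q J w) : ∀ J', J ≤ J' → Blk S L q J' w := by
  induction h with
  | nil J => intro J' _; exact Blk.nil J'
  | free hu hS' hg ht hw ih => intro J' hJ; exact Blk.free hu hS' hg ht (ih J' hJ)
  | tied hu hS' hw ih =>
    intro J' hJ
    obtain ⟨J'', rfl⟩ : ∃ J'', J' = J'' + 1 := ⟨J' - 1, by omega⟩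
    exact Blk.tied hu hS' (ih J'' (by omega))

theorem exists_blk (L : ℕ) : ∀ (q : ℕ) (w : List G), IsGeodesic S w → w.length = L * q →
    ∃ J, Blk S L q J w ∧ HasTies S L J w := by
  intro q
  induction q with
  | zero =>
    intro w _ hl
    have : w = [] := by simpa using hl
    subst this
    exact ⟨0, Blk.nil 0, [], [], by simp, rfl, by simp⟩
  | succ q ih =>
    intro w hw hl
    have hlt : (w.take L).length = L := by
      rw [List.length_take, hl, Nat.min_eq_left]
      calc L = L * 1 := (Nat.mul_one L).symm
        _ ≤ L * (q + 1) := Nat.mul_le_mul_left L (by omega)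
    have hld : (w.drop L).length = L * q := by
      rw [List.length_drop, hl, Nat.mul_succ, Nat.add_sub_cancel]
    have hcat : w.take L ++ w.drop L = w := List.take_append_drop L w
    have hg1 : IsGeodesic S (w.take L) := by
      have : IsGeodesic S ([] ++ w.take L ++ w.drop L) := by simpa [hcat] using hw
      exact IsGeodesic.mid this
    have hg2 : IsGeodesic S (w.drop L) := by
      have : IsGeodesic S (w.take L ++ w.drop L ++ []) := by simpa [hcat] using hw
      exact IsGeodesic.mid this
    obtain ⟨J, hB, Ls, r, hr, hJ, hLs⟩ := ih (w.drop L) hg2 hld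
    by_cases ht : IsTied S (w.take L)
    · refine ⟨J + 1, ?_, ([], w.take L) :: Ls, r, ?_, by rw [List.length_cons, hJ], ?_⟩
      · have := Blk.tied hlt hg1.1 hB
        rwa [hcat] at this
      · rw [List.map_cons, List.flatten_cons, List.nil_append, List.append_assoc, ← hr, hcat]
      · intro x hx
        rcases List.mem_cons.1 hx with h | h
        · rw [h]; exact ⟨hlt.le, ht⟩
        · exact hLs x h
    · refine ⟨J, ?_, ?_⟩
      · have := Blk.free hlt hg1.1 hg1 ht hB
        rwa [hcat] at this
      · cases Ls with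
        | nil =>
          refine ⟨[], w, by simp, hJ, by simp⟩
        | cons a Ls' =>
          refine ⟨(w.take L ++ a.1, a.2) :: Ls', r, ?_, by simpa using hJ, ?_⟩
          · conv_lhs => rw [← hcat, hr]
            simp [List.append_assoc]
          · intro x hx
            rcases List.mem_cons.1 hx with h | h
            · rw [h]; exact hLs a List.mem_cons_self
            · exact hLs x (List.mem_cons_of_mem _ h)

/-- the counting inequality -/
theorem geodesicGrowth_le (hS : S.Finite) {L : ℕ} (hL : 0 < L) (n : ℕ) :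
    geodesicGrowth S n ≤ (n + 1) * ((2 * volumeGrowth S L) ^ (n / L) *
      ((wordsOf S L).ncard + 1) ^ tieNumber S L n * {l : List G | (∀ s ∈ l, s ∈ S) ∧
        l.length ≤ L}.ncard) := by
  set b := volumeGrowth S L with hb
  set c := (wordsOf S L).ncard + 1 with hc
  set T := tieNumber S L n with hT
  set C := {l : List G | (∀ s ∈ l, s ∈ S) ∧ l.length ≤ L} with hC
  have hb1 : 1 ≤ b := one_le_volumeGrowth hS L
  have hsub : {l : List G | IsGeodesic S l ∧ l.length ≤ n} ⊆
      ⋃ q ∈ Finset.range (n / L + 1), Set.image2 (fun u w => u ++ w) {w | Blk S L q T w} C := by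
    rintro l ⟨hl, hn⟩
    set q := l.length / L with hq
    have hqn : q ≤ n / L := Nat.div_le_div_right hn
    have hcat : l.take (L * q) ++ l.drop (L * q) = l := List.take_append_drop _ l
    have hle : L * q ≤ l.length := by rw [hq]; exact Nat.mul_div_le _ _
    have hlt : (l.take (L * q)).length = L * q := by
      rw [List.length_take, Nat.min_eq_left hle]
    have hg1 : IsGeodesic S (l.take (L * q)) := by
      have : IsGeodesic S ([] ++ l.take (L * q) ++ l.drop (L * q)) := by simpa [hcat] using hl
      exact IsGeodesic.mid this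
    obtain ⟨J, hB, hJ⟩ := exists_blk L q _ hg1 hlt
    have hJT : J ≤ T := le_tieNumber hg1 (by rw [hlt]; omega) hJ
    simp only [Set.mem_iUnion]
    refine ⟨q, Finset.mem_range.2 (by omega), l.take (L * q), hB.mono T hJT, l.drop (L * q),
      ⟨fun s hs => hl.1 s (List.mem_of_mem_drop hs), ?_⟩, hcat⟩
    rw [List.length_drop]
    have h1 := Nat.div_add_mod l.length L
    have h2 := Nat.mod_lt l.length hL
    rw [← hq] at h1
    omega
  have hfin : ∀ q, (Set.image2 (fun u w : List G => u ++ w) {w | Blk S L q T w} C).Finite :=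
    fun q => Set.Finite.image2 _ (blk_finite hS L q T) (finite_words hS L)
  have hU : (⋃ q ∈ Finset.range (n / L + 1),
      Set.image2 (fun u w : List G => u ++ w) {w | Blk S L q T w} C).Finite :=
    Set.Finite.biUnion (Finset.finite_toSet _) (fun q _ => hfin q)
  rw [geodesicGrowth]
  calc Set.ncard {l : List G | IsGeodesic S l ∧ l.length ≤ n}
      ≤ _ := Set.ncard_le_ncard hsub hU
    _ ≤ ∑ q ∈ Finset.range (n / L + 1),
          (Set.image2 (fun u w : List G => u ++ w) {w | Blk S L q T w} C).ncard :=
        Finset.set_ncard_biUnion_le _ _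
    _ ≤ ∑ _q ∈ Finset.range (n / L + 1), (2 * b) ^ (n / L) * c ^ T * C.ncard := by
        refine Finset.sum_le_sum (fun q hq => ?_)
        have hq' : q ≤ n / L := by have := Finset.mem_range.1 hq; omega
        refine (ncard_image2_le _ (blk_finite hS L q T) (finite_words hS L)).trans ?_
        refine Nat.mul_le_mul_right _ ((blk_ncard_le hS L q T).trans ?_)
        exact Nat.mul_le_mul_right _ (Nat.pow_le_pow_right (by omega) hq')
    _ = (n / L + 1) * ((2 * b) ^ (n / L) * c ^ T * C.ncard) := by
        rw [Finset.sum_const, Finset.card_range, smul_eq_mul]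
    _ ≤ (n + 1) * ((2 * b) ^ (n / L) * c ^ T * C.ncard) :=
        Nat.mul_le_mul_right _ (Nat.add_le_add_right (Nat.div_le_self n L) 1)

end Lower

end Pool.Agent.Helper93.Geo
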