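import Mathlib
import Pool.Agent.Helper93.Geo.Ties

/-!
The tie criterion in terms of limits.
-/

namespace Pool.Agent.Helper93.Geo

open Pool.Agent.Helper90.Spinal Filter Topology

theorem root_tendsto_iff (f : ℕ → ℕ) (hf : ∀ n, 1 ≤ f n) :
    Tendsto (fun n : ℕ => (f n : ℝ) ^ (1 / (n : ℝ))) atTop (𝓝 1) ↔
      Tendsto (fun n : ℕ => Real.log (f n) / (n : ℝ)) atTop (𝓝 0) := by
  have hpos : ∀ n, (0 : ℝ) < f n := fun n => by exact_mod_cast hf n
  have h1 : ∀ n : ℕ, (f n : ℝ) ^ (1 / (n : ℝ)) = Real.exp (Real.log (f n) / (n : ℝ)) := by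
    intro n
    rw [Real.rpow_def_of_pos (hpos n), mul_one_div]
  constructor
  · intro h
    have h2 := (Real.continuousAt_log (one_ne_zero)).tendsto.comp h
    rw [Real.log_one] at h2
    refine h2.congr (fun n => ?_)
    simp only [Function.comp, h1, Real.log_exp]
  · intro h
    have h2 := (Real.continuous_exp.tendsto 0).comp h
    rw [Real.exp_zero] at h2
    refine h2.congr (fun n => ?_)
    simp only [Function.comp, h1]

variable {G : Type*} [Group G] {S : Set G}

theorem one_le_geodesicGrowth (hS : S.Finite) (n : ℕ) : 1 ≤ geodesicGrowth S n := by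
  have := two_pow_tieNumber_le hS 0 n
  exact (Nat.one_le_two_pow).trans this

theorem ties_of_subexp (hS : S.Finite)
    (hg : Tendsto (fun n : ℕ => Real.log (geodesicGrowth S n) / (n : ℝ)) atTop (𝓝 0)) (N : ℕ) :
    Tendsto (fun n : ℕ => (tieNumber S N n : ℝ) / n) atTop (𝓝 0) := by
  have hlog2 : (0 : ℝ) < Real.log 2 := Real.log_pos (by norm_num)
  have h1 : Tendsto (fun n : ℕ => (Real.log (geodesicGrowth S n) / (n : ℝ)) / Real.log 2) atTop
      (𝓝 0) := by simpa using hg.div_const (Real.log 2)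
  refine squeeze_zero (fun n => by positivity) (fun n => ?_) h1
  have h2 : (tieNumber S N n : ℝ) * Real.log 2 ≤ Real.log (geodesicGrowth S n) := by
    have h3 : ((2 : ℝ) ^ tieNumber S N n) ≤ (geodesicGrowth S n : ℝ) := by
      exact_mod_cast two_pow_tieNumber_le hS N n
    have h4 := Real.log_le_log (by positivity) h3
    rwa [Real.log_pow] at h4
  rw [le_div_iff₀ hlog2, div_mul_eq_mul_div]
  exact div_le_div_of_nonneg_right h2 (Nat.cast_nonneg n)

theorem subexp_of_ties (hS : S.Finite)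
    (hv : Tendsto (fun n : ℕ => Real.log (volumeGrowth S n) / (n : ℝ)) atTop (𝓝 0))
    (ht : ∀ N, Tendsto (fun n : ℕ => (tieNumber S N n : ℝ) / n) atTop (𝓝 0)) :
    Tendsto (fun n : ℕ => Real.log (geodesicGrowth S n) / (n : ℝ)) atTop (𝓝 0) := by
  rw [Metric.tendsto_atTop]
  intro ε hε
  -- choose the block length
  have h1 : Tendsto (fun n : ℕ => (Real.log 2 + Real.log (volumeGrowth S n)) / (n : ℝ)) atTop
      (𝓝 0) := by
    have h2 : Tendsto (fun n : ℕ => Real.log 2 / (n : ℝ)) atTop (𝓝 0) :=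
      tendsto_const_div_atTop_nhds_zero_nat _
    have h3 := h2.add hv
    rw [add_zero] at h3
    exact h3.congr (fun n => by rw [add_div])
  obtain ⟨L0, hL0⟩ := Metric.tendsto_atTop.1 h1 (ε / 2) (by positivity)
  set L := L0 + 1 with hLdef
  have hL : 0 < L := Nat.succ_pos _
  have hLε : (Real.log 2 + Real.log (volumeGrowth S L)) / (L : ℝ) < ε / 2 := by
    have := hL0 L (by omega)
    rw [Real.dist_eq, sub_zero] at this
    exact (le_abs_self _).trans_lt this
  set b := volumeGrowth S L with hb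
  set c := (wordsOf S L).ncard + 1 with hc
  set C := {l : List G | (∀ s ∈ l, s ∈ S) ∧ l.length ≤ L}.ncard with hC
  have hb1 : 1 ≤ b := one_le_volumeGrowth hS L
  have hC1 : 1 ≤ C := by
    rw [hC]
    exact (Set.ncard_pos (finite_words hS L)).2 ⟨[], by simp, Nat.zero_le _⟩
  have h4 : Tendsto (fun n : ℕ => Real.log ((n : ℝ) + 1) / (n : ℝ) +
      (tieNumber S L n : ℝ) / n * Real.log c + Real.log C / (n : ℝ)) atTop (𝓝 0) := by
    have h5 : Tendsto (fun n : ℕ => Real.log ((n : ℝ) + 1) / (n : ℝ)) atTop (𝓝 0) := by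
      have h6 : Tendsto (fun x : ℝ => Real.log x / (x - 1)) atTop (𝓝 0) := by
        have h7 : Tendsto (fun x : ℝ => Real.log x ^ 1 / (1 * x + (-1))) atTop (𝓝 0) :=
          Real.tendsto_pow_log_div_mul_add_atTop 1 (-1) 1 one_ne_zero
        exact h7.congr (fun x => by ring_nf)
      have h8 : Tendsto (fun n : ℕ => (n : ℝ) + 1) atTop atTop :=
        tendsto_atTop_add_const_right _ _ tendsto_natCast_atTop_atTop
      exact (h6.comp h8).congr (fun n => by simp [Function.comp])
    have h9 : Tendsto (fun n : ℕ => Real.log C / (n : ℝ)) atTop (𝓝 0) :=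
      tendsto_const_div_atTop_nhds_zero_nat _
    have h10 := (h5.add ((ht L).mul_const (Real.log c))).add h9
    simpa using h10
  obtain ⟨n1, hn1⟩ := Metric.tendsto_atTop.1 h4 (ε / 2) (by positivity)
  refine ⟨n1 + 1, fun n hn => ?_⟩
  have hn0 : (0 : ℝ) < n := by exact_mod_cast (by omega : 0 < n)
  have hγ1 : (1 : ℝ) ≤ geodesicGrowth S n := by exact_mod_cast one_le_geodesicGrowth hS n
  have hlogγ : 0 ≤ Real.log (geodesicGrowth S n) := Real.log_nonneg hγ1
  rw [Real.dist_eq, sub_zero, abs_of_nonneg (div_nonneg hlogγ hn0.le)]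
  have hbpos : (0 : ℝ) < b := by exact_mod_cast hb1
  have hcpos : (0 : ℝ) < c := by rw [hc]; positivity
  have hCpos : (0 : ℝ) < C := by exact_mod_cast hC1
  have h11 : (geodesicGrowth S n : ℝ) ≤ ((n : ℝ) + 1) * ((2 * (b : ℝ)) ^ (n / L) *
      (c : ℝ) ^ tieNumber S L n * (C : ℝ)) := by
    have := geodesicGrowth_le hS hL n
    exact_mod_cast this
  have h12 : Real.log (geodesicGrowth S n) ≤ Real.log ((n : ℝ) + 1) +
      ((n / L : ℕ) : ℝ) * Real.log (2 * (b : ℝ)) + (tieNumber S L n : ℝ) * Real.log c +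
        Real.log C := by
    have h13 := Real.log_le_log (by linarith) h11
    rw [Real.log_mul (by positivity) (by positivity), Real.log_mul (by positivity) (by positivity),
      Real.log_mul (by positivity) (by positivity), Real.log_pow, Real.log_pow] at h13
    linarith
  have h14 : ((n / L : ℕ) : ℝ) * Real.log (2 * (b : ℝ)) ≤
      (n : ℝ) * ((Real.log 2 + Real.log b) / (L : ℝ)) := by
    have h15 : Real.log (2 * (b : ℝ)) = Real.log 2 + Real.log b :=
      Real.log_mul (by norm_num) hbpos.ne'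
    have h16 : ((n / L : ℕ) : ℝ) ≤ (n : ℝ) / (L : ℝ) := Nat.cast_div_le
    have h17 : 0 ≤ Real.log 2 + Real.log (b : ℝ) := by
      have := Real.log_nonneg (by exact_mod_cast hb1 : (1 : ℝ) ≤ b)
      have := Real.log_pos (by norm_num : (1 : ℝ) < 2)
      linarith
    rw [h15]
    calc ((n / L : ℕ) : ℝ) * (Real.log 2 + Real.log b) ≤
        ((n : ℝ) / (L : ℝ)) * (Real.log 2 + Real.log b) := mul_le_mul_of_nonneg_right h16 h17
      _ = _ := by ring
  have h18 := hn1 n (by omega)
  rw [Real.dist_eq, sub_zero] at h18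
  have h19 := (le_abs_self _).trans_lt h18
  rw [div_lt_iff₀ hn0]
  have h20 : (Real.log ((n : ℝ) + 1) / (n : ℝ) + (tieNumber S L n : ℝ) / n * Real.log c +
      Real.log C / (n : ℝ)) * n < ε / 2 * n := mul_lt_mul_of_pos_right h19 hn0
  have h21 : (Real.log ((n : ℝ) + 1) / (n : ℝ) + (tieNumber S L n : ℝ) / n * Real.log c +
      Real.log C / (n : ℝ)) * n = Real.log ((n : ℝ) + 1) + (tieNumber S L n : ℝ) * Real.log c +
      Real.log C := by
    field_simp
  rw [h21] at h20
  have h22 : (n : ℝ) * ((Real.log 2 + Real.log b) / (L : ℝ)) ≤ (n : ℝ) * (ε / 2) :=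
    mul_le_mul_of_nonneg_left hLε.le hn0.le
  nlinarith

/-- **Tie criterion.** -/
theorem tie_criterion (hS : S.Finite)
    (hv : Tendsto (fun n : ℕ => (volumeGrowth S n : ℝ) ^ (1 / (n : ℝ))) atTop (𝓝 1)) :
    Tendsto (fun n : ℕ => (geodesicGrowth S n : ℝ) ^ (1 / (n : ℝ))) atTop (𝓝 1) ↔
      ∀ N : ℕ, Tendsto (fun n : ℕ => (tieNumber S N n : ℝ) / n) atTop (𝓝 0) := by
  rw [root_tendsto_iff _ (one_le_geodesicGrowth hS)]
  rw [root_tendsto_iff _ (one_le_volumeGrowth hS)] at hv
  exact ⟨fun h N => ties_of_subexp hS h N, fun h => subexp_of_ties hS hv h⟩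

end Pool.Agent.Helper93.Geo
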